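import Pool.Agent.T2H16.SA.Arc2

/-! Two Jordan curves without inscribed squares with a common arc between wide corners: the number of
half turns changes along the arc by the same amount for both curves. -/

set_option autoImplicit false
open Complex Set Topology Metric
open scoped ComplexConjugate

namespace Pool.Agent.T2H16

open Pool.Agent.H763R2 Pool.Agent.H763R2.An Pool.Agent.W675.Peg Pool.Agent.TH569.Peg
open Pool.Agent.Y535.PEG
open Pool.Agent.H763R2.Dm (NoSq floor_const b_true b_false)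

variable {c q : ℝ → ℂ} {a b : ℝ} {θ θ' : ℝ → ℝ → ℝ} {g g' : ℤ}

theorem cornA (L : Loop c) (J : Inj c) (hab : a < b) (hba : b < a + 1) (W : Wide c a) :
    ∃ δ > 0, ∀ t, a < t → t < a + δ → ∀ w ∈ c '' Icc b (a + 1),
      ‖w - c a‖ < δ → ((w - c a) * conj (c t - c a)).re ≤ 0 := by
  obtain ⟨ρ, hρ, -, -, hx⟩ := W
  have hd1 : 0 < b - a := by linarith
  obtain ⟨ρ1, hρ1, hnear⟩ := near_par L J (δ := min (min ρ (b - a)) (1 / 2)) (by positivity)
  refine ⟨min ρ ρ1, by positivity, ?_⟩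
  intro t h1 h2 w hw hn
  have m1 := min_le_left ρ ρ1
  have m2 := min_le_right ρ ρ1
  obtain ⟨z, hz, rfl⟩ := hw
  obtain ⟨n, e, he, hs⟩ := hnear z a (hn.trans_le m2)
  obtain ⟨he1, he2⟩ := lt_min_iff.1 he
  obtain ⟨he3, he4⟩ := lt_min_iff.1 he1
  rw [abs_lt] at he2 he3 he4
  have n1 : n = 1 := by
    have h5 : (0:ℝ) < n := by linarith [hz.1]
    have h6 : (n:ℝ) < 2 := by linarith [hz.2]
    have h7 : 0 < n := by exact_mod_cast h5
    have h8 : n < 2 := by exact_mod_cast h6
    omega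
  subst n1
  push_cast at hs
  have ez : c z = c (a + e) := by rw [hs, L.per]
  rw [ez]
  have he0 : e ≤ 0 := by linarith [hz.2]
  rcases he0.lt_or_eq with h | h
  · exact (hx (a + e) t (by linarith) (by linarith) h1 (by linarith)).le
  · rw [h, add_zero, sub_self, zero_mul, zero_re]

theorem cornB (L : Loop c) (J : Inj c) (hab : a < b) (hba : b < a + 1) (W : Wide c b) :
    ∃ δ > 0, ∀ t, b - δ < t → t < b → ∀ w ∈ c '' Icc b (a + 1),
      ‖w - c b‖ < δ → ((w - c b) * conj (c t - c b)).re ≤ 0 := by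
  obtain ⟨ρ, hρ, -, -, hx⟩ := W
  have hd1 : 0 < b - a := by linarith
  have hd2 : 0 < a + 1 - b := by linarith
  obtain ⟨ρ1, hρ1, hnear⟩ := near_par L J (δ := min (min ρ (min (b - a) (a + 1 - b))) (1 / 2))
    (by positivity)
  refine ⟨min ρ ρ1, by positivity, ?_⟩
  intro t h1 h2 w hw hn
  have m1 := min_le_left ρ ρ1
  have m2 := min_le_right ρ ρ1
  obtain ⟨z, hz, rfl⟩ := hw
  obtain ⟨n, e, he, hs⟩ := hnear z b (hn.trans_le m2)
  obtain ⟨he1, he2⟩ := lt_min_iff.1 he
  obtain ⟨he3, he4⟩ := lt_min_iff.1 he1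
  obtain ⟨he4, he5⟩ := lt_min_iff.1 he4
  rw [abs_lt] at he2 he3 he4 he5
  have n1 : n = 0 := by
    have h5 : (-1:ℝ) < n := by linarith [hz.1]
    have h6 : (n:ℝ) < 1 := by linarith [hz.2]
    have h7 : -1 < n := by exact_mod_cast h5
    have h8 : n < 1 := by exact_mod_cast h6
    omega
  subst n1
  push_cast at hs
  rw [add_zero] at hs
  rw [hs]
  have he0 : 0 ≤ e := by linarith [hz.1]
  rcases he0.lt_or_eq with h | h
  · have := hx t (b + e) (by linarith) h2 (by linarith) (by linarith)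
    simp only [mul_re, conj_re, conj_im] at this ⊢
    linarith
  · rw [← h, add_zero, sub_self, zero_mul, zero_re]

/-- squares over short chords of an arc do not meet a closed set with certain properties -/
theorem thinG (hc : Continuous c) (hab : a < b) {Z : Set ℂ} (hZ : IsClosed Z)
    (hA : ∃ δ > 0, ∀ t, a < t → t < a + δ → ∀ w ∈ Z, ‖w - c a‖ < δ →
      ((w - c a) * conj (c t - c a)).re ≤ 0)
    (hB : ∃ δ > 0, ∀ t, b - δ < t → t < b → ∀ w ∈ Z, ‖w - c b‖ < δ →
      ((w - c b) * conj (c t - c b)).re ≤ 0)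
    (nA : ∃ ρ > 0, ∀ x y, a < x → x < a + ρ → a < y → y < a + ρ →
      Narrow (c x - c a) (c y - c a))
    (nB : ∃ ρ > 0, ∀ x y, b - ρ < x → x < b → b - ρ < y → y < b →
      Narrow (c x - c b) (c y - c b))
    (hd : ∀ t, a < t → t < b → c t ∉ Z) :
    ∃ ε > 0, ∀ x y, a < x → x ≤ y → y < b → y < x + ε → DD c x y ∉ Z ∧ CC c x y ∉ Z := by
  obtain ⟨δ1, hδ1, h1⟩ := hA
  obtain ⟨δ2, hδ2, h2⟩ := hB
  obtain ⟨ρa, hρa, noa⟩ := nA
  obtain ⟨ρb, hρb, nib⟩ := nB
  obtain ⟨η1, hη1, c1⟩ := Metric.continuous_iff.1 hc a (δ1 / 8) (by positivity)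
  obtain ⟨η2, hη2, c2⟩ := Metric.continuous_iff.1 hc b (δ2 / 8) (by positivity)
  simp only [dist_eq_norm, Real.norm_eq_abs] at c1 c2
  obtain ⟨d, hd0, d1, d2, d3, d4, d5, d6, d7⟩ : ∃ d > 0, d ≤ δ1 ∧ d ≤ δ2 ∧ d ≤ ρa ∧ d ≤ ρb ∧
      d ≤ η1 ∧ d ≤ η2 ∧ 2 * d < b - a := by
    have : 0 < b - a := by linarith
    refine ⟨min (min (min δ1 δ2) (min ρa ρb)) (min (min η1 η2) ((b - a) / 3)), by positivity,
      ?_, ?_, ?_, ?_, ?_, ?_, ?_⟩
    · exact (min_le_left _ _).trans ((min_le_left _ _).trans (min_le_left _ _))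
    · exact (min_le_left _ _).trans ((min_le_left _ _).trans (min_le_right _ _))
    · exact (min_le_left _ _).trans ((min_le_right _ _).trans (min_le_left _ _))
    · exact (min_le_left _ _).trans ((min_le_right _ _).trans (min_le_right _ _))
    · exact (min_le_right _ _).trans ((min_le_left _ _).trans (min_le_left _ _))
    · exact (min_le_right _ _).trans ((min_le_left _ _).trans (min_le_right _ _))
    · have : min (min (min δ1 δ2) (min ρa ρb)) (min (min η1 η2) ((b - a) / 3)) ≤ (b - a) / 3 :=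
        (min_le_right _ _).trans (min_le_right _ _)
      linarith
  have hcomp : IsCompact (c '' Icc (a + d / 2) (b - d / 2)) := isCompact_Icc.image hc
  have hdisj : Disjoint (c '' Icc (a + d / 2) (b - d / 2)) Z := by
    rw [Set.disjoint_left]
    rintro _ ⟨t, ht, rfl⟩
    exact hd t (by linarith [ht.1]) (by linarith [ht.2])
  obtain ⟨r, hr, hthick⟩ := hdisj.exists_thickenings hcomp hZ
  have huc : UniformContinuousOn c (Icc a b) :=
    isCompact_Icc.uniformContinuousOn_of_continuous hc.continuousOn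
  obtain ⟨η, hη, hu⟩ := Metric.uniformContinuousOn_iff.1 huc (r / 2) (by positivity)
  refine ⟨min (d / 2) η, by positivity, ?_⟩
  intro x y hx hxy hy hyx
  have ε1 : y < x + d / 2 := hyx.trans_le (by linarith [min_le_left (d / 2) η])
  have ε2 : y < x + η := hyx.trans_le (by linarith [min_le_right (d / 2) η])
  rcases le_total x (a + d / 2) with hxa | hxa
  · -- near the first end
    have hnar : Narrow (c x - c a) (c y - c a) := noa x y hx (by linarith) (by linarith)
      (by linarith)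
    have nx := c1 x (by rw [abs_lt]; constructor <;> linarith)
    have ny := c1 y (by rw [abs_lt]; constructor <;> linarith)
    have nxy : ‖c y - c x‖ < δ1 / 4 := by
      have := norm_add_le (c y - c a) (c a - c x)
      rw [sub_add_sub_cancel, norm_sub_rev (c a)] at this
      linarith
    constructor
    · intro hw
      have := h1 y (by linarith) (by linarith) _ hw (by
        rw [DD_eq, show c x + I * (c y - c x) - c a = (c x - c a) + I * (c y - c x) by ring]
        refine (norm_add_le _ _).trans_lt ?_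
        rw [norm_mul, norm_I, one_mul]; linarith)
      have h3 := narrowD hnar
      rw [DD_eq, show c x + I * (c y - c x) - c a =
        (c x - c a) + I * ((c y - c a) - (c x - c a)) by ring] at this
      linarith
    · intro hw
      have := h1 x (by linarith) (by linarith) _ hw (by
        rw [CC_eq, show c y + I * (c y - c x) - c a = (c y - c a) + I * (c y - c x) by ring]
        refine (norm_add_le _ _).trans_lt ?_
        rw [norm_mul, norm_I, one_mul]; linarith)
      have h3 := narrowC hnar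
      rw [CC_eq, show c y + I * (c y - c x) - c a =
        (c y - c a) + I * ((c y - c a) - (c x - c a)) by ring] at this
      linarith
  rcases le_total x (b - d / 2) with hxb | hxb
  · -- the middle
    have h5 := hu y ⟨by linarith, by linarith⟩ x ⟨by linarith, by linarith⟩ (by
      rw [Real.dist_eq, abs_of_nonneg (by linarith)]; linarith)
    rw [dist_eq_norm] at h5
    have hmem : c x ∈ c '' Icc (a + d / 2) (b - d / 2) := ⟨x, ⟨hxa, hxb⟩, rfl⟩
    have far : ∀ z : ℂ, ‖z - c x‖ < r → z ∉ Z := by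
      intro z hz hw
      exact Set.disjoint_left.1 hthick (mem_thickening_iff.2 ⟨c x, hmem, by
        rw [dist_eq_norm]; exact hz⟩) (self_subset_thickening hr _ hw)
    constructor
    · refine far _ ?_
      rw [DD_eq, add_sub_cancel_left, norm_mul, norm_I, one_mul]; linarith
    · refine far _ ?_
      rw [CC_eq, show c y + I * (c y - c x) - c x = (c y - c x) + I * (c y - c x) by ring]
      refine (norm_add_le _ _).trans_lt ?_
      rw [norm_mul, norm_I, one_mul]; linarith
  · -- near the second end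
    have hnar : Narrow (c x - c b) (c y - c b) := nib x y (by linarith) (by linarith) (by linarith)
      (by linarith)
    have nx := c2 x (by rw [abs_lt]; constructor <;> linarith)
    have ny := c2 y (by rw [abs_lt]; constructor <;> linarith)
    have nxy : ‖c y - c x‖ < δ2 / 4 := by
      have := norm_add_le (c y - c b) (c b - c x)
      rw [sub_add_sub_cancel, norm_sub_rev (c b)] at this
      linarith
    constructor
    · intro hw
      have := h2 y (by linarith) (by linarith) _ hw (by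
        rw [DD_eq, show c x + I * (c y - c x) - c b = (c x - c b) + I * (c y - c x) by ring]
        refine (norm_add_le _ _).trans_lt ?_
        rw [norm_mul, norm_I, one_mul]; linarith)
      have h3 := narrowD hnar
      rw [DD_eq, show c x + I * (c y - c x) - c b =
        (c x - c b) + I * ((c y - c b) - (c x - c b)) by ring] at this
      linarith
    · intro hw
      have := h2 x (by linarith) (by linarith) _ hw (by
        rw [CC_eq, show c y + I * (c y - c x) - c b = (c y - c b) + I * (c y - c x) by ring]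
        refine (norm_add_le _ _).trans_lt ?_
        rw [norm_mul, norm_I, one_mul]; linarith)
      have h3 := narrowC hnar
      rw [CC_eq, show c y + I * (c y - c x) - c b =
        (c y - c b) + I * ((c y - c b) - (c x - c b)) by ring] at this
      linarith

/-- a common arc of two curves -/
theorem share (L : Loop c) (J : Inj c) (nosq : NoSq (range c)) (A : Ang c (mgc c) θ g)
    (L' : Loop q) (J' : Inj q) (nosq' : NoSq (range q)) (A' : Ang q (mgc q) θ' g')
    (hab : a < b) (hba : b < a + 1) (heq : ∀ t ∈ Icc a b, q t = c t)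
    (Wa : Wide c a) (Wb : Wide c b) (Wa' : Wide q a) (Wb' : Wide q b) {k l k' l' : ℤ}
    (hk : WL θ a k) (hl : WL θ b l) (hk' : WL θ' a k') (hl' : WL θ' b l') :
    l - k = l' - k' := by
  have hπ := Real.pi_pos
  have qa := heq a ⟨le_rfl, hab.le⟩
  have qb := heq b ⟨hab.le, le_rfl⟩
  -- the rests are avoided
  obtain ⟨ε, hε, ht⟩ := thinG (c := c) (Z := c '' Icc b (a + 1) ∪ q '' Icc b (a + 1)) L.cont hab
    ((isCompact_Icc.image L.cont).union (isCompact_Icc.image L'.cont)).isClosed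
    (by
      obtain ⟨δ1, hδ1, h1⟩ := cornA L J hab hba Wa
      obtain ⟨δ2, hδ2, h2⟩ := cornA L' J' hab hba Wa'
      refine ⟨min (min δ1 δ2) (b - a), by
        have : 0 < b - a := by linarith
        positivity, fun t t1 t2 w hw hn => ?_⟩
      have m1 : min (min δ1 δ2) (b - a) ≤ δ1 := (min_le_left _ _).trans (min_le_left _ _)
      have m2 : min (min δ1 δ2) (b - a) ≤ δ2 := (min_le_left _ _).trans (min_le_right _ _)
      have m3 : min (min δ1 δ2) (b - a) ≤ b - a := min_le_right _ _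
      rcases hw with hw | hw
      · exact h1 t t1 (by linarith) w hw (by linarith)
      · have := h2 t t1 (by linarith) w hw (by rw [qa]; linarith)
        rwa [qa, heq t ⟨t1.le, by linarith⟩] at this)
    (by
      obtain ⟨δ1, hδ1, h1⟩ := cornB L J hab hba Wb
      obtain ⟨δ2, hδ2, h2⟩ := cornB L' J' hab hba Wb'
      refine ⟨min (min δ1 δ2) (b - a), by
        have : 0 < b - a := by linarith
        positivity, fun t t1 t2 w hw hn => ?_⟩
      have m1 : min (min δ1 δ2) (b - a) ≤ δ1 := (min_le_left _ _).trans (min_le_left _ _)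
      have m2 : min (min δ1 δ2) (b - a) ≤ δ2 := (min_le_left _ _).trans (min_le_right _ _)
      have m3 : min (min δ1 δ2) (b - a) ≤ b - a := min_le_right _ _
      rcases hw with hw | hw
      · exact h1 t (by linarith) t2 w hw (by linarith)
      · have := h2 t (by linarith) t2 w hw (by rw [qb]; linarith)
        rwa [qb, heq t ⟨by linarith, t2.le⟩] at this)
    (by obtain ⟨ρ, hρ, h, -, -⟩ := Wa; exact ⟨ρ, hρ, h⟩)
    (by obtain ⟨ρ, hρ, -, h, -⟩ := Wb; exact ⟨ρ, hρ, h⟩)
    (by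
      rintro t t1 t2 (⟨u, hu, e⟩ | ⟨u, hu, e⟩)
      · rcases hu.2.lt_or_eq with h | h
        · exact J t u (by linarith [hu.1]) (by linarith) e.symm
        · rw [h, L.per] at e
          exact J a t t1 (by linarith) e
      · rw [← heq t ⟨t1.le, t2.le⟩] at e
        rcases hu.2.lt_or_eq with h | h
        · exact J' t u (by linarith [hu.1]) (by linarith) e.symm
        · rw [h, L'.per] at e
          exact J' a t t1 (by linarith) e)
  -- sides
  set T : Set (ℝ × ℝ) := {p : ℝ × ℝ | a < p.1 ∧ p.1 ≤ p.2 ∧ p.2 < b ∧ p.2 < p.1 + ε} with hT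
  set S : Set ℂ := (fun p : ℝ × ℝ => DD c p.1 p.2) '' T ∪ (fun p : ℝ × ℝ => CC c p.1 p.2) '' T
    with hS
  have hTp : IsPreconnected T := tri_pre a b ε
  have hmid : (((a + b) / 2, (a + b) / 2) : ℝ × ℝ) ∈ T :=
    ⟨by simp only; linarith, le_rfl, by simp only; linarith, by simp only; linarith⟩
  have hSp : IsPreconnected S := by
    refine IsPreconnected.union (c ((a + b) / 2)) ⟨_, hmid, ?_⟩ ⟨_, hmid, ?_⟩
      (hTp.image _ L.DD_cont.continuousOn) (hTp.image _ L.CC_cont.continuousOn)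
    · simp only [DD_eq]; ring
    · simp only [CC_eq]; ring
  have hav : ∀ z ∈ S, z ∉ c '' Icc b (a + 1) ∪ q '' Icc b (a + 1) := by
    rintro z (⟨p, ⟨a1, a2, a3, a4⟩, rfl⟩ | ⟨p, ⟨a1, a2, a3, a4⟩, rfl⟩)
    · exact (ht p.1 p.2 a1 a2 a3 a4).1
    · exact (ht p.1 p.2 a1 a2 a3 a4).2
  obtain ⟨τ, hτ, hse⟩ := side_eq L L' hab hba heq hSp
    (fun z hz hw => hav z hz (Or.inl hw)) (fun z hz hw => hav z hz (Or.inr hw))
  have t0 : τ ≠ 0 := by rcases hτ with rfl | rfl <;> norm_num
  have eDC : ∀ x ∈ Icc a b, ∀ y ∈ Icc a b, DD q x y = DD c x y ∧ CC q x y = CC c x y := by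
    intro x hx y hy
    rw [DD_eq, DD_eq, CC_eq, CC_eq, heq x hx, heq y hy]
    exact ⟨rfl, rfl⟩
  have key : ∀ z ∈ S, 0 ≤ τ * (mgc c z * mgc q z) ∧ (mgc c z = 0 ↔ mgc q z = 0) := by
    intro z hz
    obtain ⟨i1, i2⟩ := hse z hz
    have z1 := (mgc_sg L).zero L (z := z)
    have z2 := (mgc_sg L').zero L' (z := z)
    refine ⟨?_, by rw [z1, z2, i1]⟩
    by_cases hz1 : z ∈ range c
    · rw [z1.2 hz1]; simp
    · exact (i2 hz1).le
  have hs : ∀ x y, a < x → x < y → y < b → y < x + ε →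
      0 ≤ τ * (mgc c (DD c x y) * mgc q (DD q x y)) ∧
      0 ≤ τ * (mgc c (CC c x y) * mgc q (CC q x y)) ∧
      (mgc c (DD c x y) = 0 ↔ mgc q (DD q x y) = 0) ∧
      (mgc c (CC c x y) = 0 ↔ mgc q (CC q x y) = 0) := by
    intro x y h1 h2 h3 h4
    obtain ⟨eD, eC⟩ := eDC x ⟨h1.le, by linarith⟩ y ⟨by linarith, h3.le⟩
    rw [eD, eC]
    have k1 := key _ (Or.inl ⟨(x, y), ⟨h1, h2.le, h3, h4⟩, rfl⟩ : DD c x y ∈ S)
    have k2 := key _ (Or.inr ⟨(x, y), ⟨h1, h2.le, h3, h4⟩, rfl⟩ : CC c x y ∈ S)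
    exact ⟨k1.1, k2.1, k1.2, k2.2⟩
  -- the path
  obtain ⟨ρa, hρa, -, wa⟩ := wide_sign L J Wa
  obtain ⟨ρb, hρb, -, wb⟩ := wide_sign L J Wb
  obtain ⟨ρa', hρa', -, wa'⟩ := wide_sign L' J' Wa'
  obtain ⟨ρb', hρb', -, wb'⟩ := wide_sign L' J' Wb'
  obtain ⟨σa, hσa, ka⟩ := hk
  obtain ⟨σb, hσb, kb⟩ := hl
  obtain ⟨σa', hσa', ka'⟩ := hk'
  obtain ⟨σb', hσb', kb'⟩ := hl'
  obtain ⟨e, he, e1, e2, e3, e4, e5, e6, e7, e8, e9, e10⟩ : ∃ e > 0, e < ε ∧ e < b - a ∧
      e < ρa ∧ e < ρb ∧ e < ρa' ∧ e < ρb' ∧ e < σa ∧ e < σb ∧ e < σa' ∧ e < σb' := by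
    have hd : 0 < b - a := by linarith
    obtain ⟨m, hm⟩ : ∃ m, m = min (min (min ε (b - a)) (min ρa ρb))
      (min (min ρa' ρb') (min (min σa σb) (min σa' σb'))) := ⟨_, rfl⟩
    have m0 : 0 < m := by rw [hm]; positivity
    have l1 : m ≤ min (min ε (b - a)) (min ρa ρb) := hm ▸ min_le_left _ _
    have l2 : m ≤ min (min ρa' ρb') (min (min σa σb) (min σa' σb')) := hm ▸ min_le_right _ _
    obtain ⟨l3, l4⟩ := le_min_iff.1 l1
    obtain ⟨l5, l6⟩ := le_min_iff.1 l2
    obtain ⟨n1, n2⟩ := le_min_iff.1 l3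
    obtain ⟨n3, n4⟩ := le_min_iff.1 l4
    obtain ⟨n5, n6⟩ := le_min_iff.1 l5
    obtain ⟨n7, n8⟩ := le_min_iff.1 l6
    obtain ⟨n9, n10⟩ := le_min_iff.1 n7
    obtain ⟨n11, n12⟩ := le_min_iff.1 n8
    exact ⟨m / 2, by linarith, by linarith, by linarith, by linarith, by linarith, by linarith,
      by linarith, by linarith, by linarith, by linarith, by linarith⟩
  obtain ⟨w, hw⟩ : ∃ w, w = b - a - e := ⟨_, rfl⟩
  have w0 : 0 < w := by linarith
  set X : ℝ → ℝ := fun u => a + cl u * w with hX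
  set Y : ℝ → ℝ := fun u => a + e + cl u * w with hY
  have ccl := cl_cont
  have cX : Continuous X := by rw [hX]; fun_prop
  have cY : Continuous Y := by rw [hY]; fun_prop
  have hXa : ∀ p, a ≤ X p := fun p => by
    have := mul_nonneg (cl_nn p) w0.le
    simp only [hX]; linarith
  have hYb : ∀ p, Y p ≤ b := fun p => by
    have := mul_nonneg (sub_nonneg.2 (cl_le p)) w0.le
    simp only [hY]; linarith
  have hXY : ∀ p, Y p = X p + e := fun p => by simp only [hX, hY]; ring
  have hXI : ∀ p, X p ∈ Icc a b := fun p => ⟨hXa p, by linarith [hXY p, hYb p]⟩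
  have hYI : ∀ p, Y p ∈ Icc a b := fun p => ⟨by linarith [hXY p, hXa p], hYb p⟩
  have cD := L'.DD_cont
  have cC := L'.CC_cont
  have cM := (mgc_sg L').cont
  have cD' := L.DD_cont
  have cC' := L.CC_cont
  have cM' := (mgc_sg L).cont
  have X0 : X 0 = a := by simp only [hX]; rw [cl0 (le_refl (0:ℝ))]; ring
  have Y0 : Y 0 = a + e := by simp only [hY]; rw [cl0 (le_refl (0:ℝ))]; ring
  have X1 : X 1 = a + w := by simp only [hX]; rw [cl1 (le_refl (1:ℝ))]; ring
  have Y1 : Y 1 = b := by simp only [hY]; rw [cl1 (le_refl (1:ℝ)), hw]; ring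
  have hin : ∀ u ∈ Ioo (0:ℝ) 1, _ := fun u hu => hs (X u) (Y u)
    (by simp only [hX]; rw [clm hu.1.le hu.2.le]; linarith [mul_pos hu.1 w0])
    (by linarith [hXY u])
    (by simp only [hY]; rw [clm hu.1.le hu.2.le]; linarith [mul_pos (sub_pos.2 hu.2) w0])
    (by linarith [hXY u])
  have i1 : Continuous fun u : ℝ => mgc c (DD c (X u) (Y u)) :=
    cM'.comp (cD'.comp (cX.prodMk cY))
  have i2 : Continuous fun u : ℝ => mgc q (DD q (X u) (Y u)) :=
    cM.comp (cD.comp (cX.prodMk cY))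
  have i3 : Continuous fun u : ℝ => mgc c (CC c (X u) (Y u)) :=
    cM'.comp (cC'.comp (cX.prodMk cY))
  have i4 : Continuous fun u : ℝ => mgc q (CC q (X u) (Y u)) :=
    cM.comp (cC.comp (cX.prodMk cY))
  have g1 := cont_pos (h := fun u => τ * (mgc c (DD c (X u) (Y u)) *
      mgc q (DD q (X u) (Y u)))) (by fun_prop) (fun u hu => (hin u hu).1)
  have g2 := cont_pos (h := fun u => τ * (mgc c (CC c (X u) (Y u)) *
      mgc q (CC q (X u) (Y u)))) (by fun_prop) (fun u hu => (hin u hu).2.1)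
  have W0 := wa a (a + e) (by linarith) le_rfl (by linarith) (by linarith) (by linarith)
  have W1 := wb (a + w) b (by linarith) (by linarith) le_rfl (by linarith) (by linarith)
  have W0' := wa' a (a + e) (by linarith) le_rfl (by linarith) (by linarith) (by linarith)
  have W1' := wb' (a + w) b (by linarith) (by linarith) le_rfl (by linarith) (by linarith)
  have pos2 : ∀ {M1 M2 N1 N2 : ℝ}, 0 ≤ τ * (M1 * N1) → 0 ≤ τ * (M2 * N2) → 0 < M1 * M2 →
      0 < N1 * N2 → 0 < τ * (M1 * N1 + M2 * N2) := by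
    intro M1 M2 N1 N2 h1 h2 h3 h4
    have m1 : M1 ≠ 0 := left_ne_zero_of_mul h3.ne'
    have n1 : N1 ≠ 0 := left_ne_zero_of_mul h4.ne'
    have h5 : τ * (M1 * N1) ≠ 0 := mul_ne_zero t0 (mul_ne_zero m1 n1)
    have h6 := lt_of_le_of_ne h1 h5.symm
    rw [mul_add]; linarith
  have hpos : ∀ u ∈ Icc (0:ℝ) 1, 0 < τ * (mgc c (DD c (X u) (Y u)) *
      mgc q (DD q (X u) (Y u)) + mgc c (CC c (X u) (Y u)) * mgc q (CC q (X u) (Y u))) := by
    intro u hu
    rcases hu.1.lt_or_eq with h | h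
    · rcases hu.2.lt_or_eq with h' | h'
      · obtain ⟨j1, j2, j3, j4⟩ := hin u ⟨h, h'⟩
        have hnz := nz L J (mgc_sg L) nosq (x := X u) (y := Y u) (by linarith [hXY u])
          (by linarith [hXa u, hYb u])
        rw [mul_add]
        rcases (add_nonneg j1 j2).lt_or_eq with h0 | h0
        · exact h0
        · exfalso
          have k1 : τ * (mgc c (DD c (X u) (Y u)) * mgc q (DD q (X u) (Y u))) = 0 := by linarith
          have k2 : τ * (mgc c (CC c (X u) (Y u)) * mgc q (CC q (X u) (Y u))) = 0 := by linarith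
          simp only [mul_eq_zero, t0, false_or, ← j3, ← j4, or_self] at k1 k2
          exact hnz ⟨k1, k2⟩
      · rw [h', X1, Y1]
        have G3 := g1 1 ⟨zero_le_one, le_rfl⟩
        have G4 := g2 1 ⟨zero_le_one, le_rfl⟩
        simp only [X1, Y1] at G3 G4
        exact pos2 G3 G4 W1 W1'
    · rw [← h, X0, Y0]
      have G1 := g1 0 ⟨le_rfl, zero_le_one⟩
      have G2 := g2 0 ⟨le_rfl, zero_le_one⟩
      simp only [X0, Y0] at G1 G2
      exact pos2 G1 G2 W0 W0'
  obtain ⟨n, hn⟩ : ∃ n : ℤ, (τ = 1 ∧ n = 0) ∨ (τ = -1 ∧ n = 1) := by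
    rcases hτ with h | h
    · exact ⟨0, Or.inl ⟨h, rfl⟩⟩
    · exact ⟨1, Or.inr ⟨h, rfl⟩⟩
  have hU : ∀ u, X u < Y u ∧ Y u < X u + 1 := fun u =>
    ⟨by linarith [hXY u], by linarith [hXa u, hYb u]⟩
  have cθ : Continuous fun u : ℝ => θ (X u) (Y u) :=
    A.path (p := fun u => (X u, Y u)) (by fun_prop) (fun u => hU u)
  have cθ' : Continuous fun u : ℝ => θ' (X u) (Y u) :=
    A'.path (p := fun u => (X u, Y u)) (by fun_prop) (fun u => hU u)
  have cφ : Continuous fun u : ℝ => θ' (X u) (Y u) + n * Real.pi := cθ'.add continuous_const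
  have hcs : ∀ {c : ℝ → ℂ} {θ : ℝ → ℝ → ℝ} {g : ℤ}, Ang c (mgc c) θ g → ∀ {x y : ℝ}, x < y →
      y < x + 1 → 0 < mgc c (DD c x y) * mgc c (CC c x y) →
      0 < Real.cos (θ x y) * Real.sin (θ x y) := by
    intro c θ g A x y h1 h2 h3
    obtain ⟨ρ, hρ, r1, r2⟩ := A.ex x y h1 h2
    rw [r1, r2, show ρ * Real.cos (θ x y) * (ρ * Real.sin (θ x y)) =
      (ρ * ρ) * (Real.cos (θ x y) * Real.sin (θ x y)) by ring] at h3
    exact (mul_pos_iff_of_pos_left (mul_pos hρ hρ)).1 h3
  have shiftcs : ∀ {x : ℝ}, 0 < Real.cos x * Real.sin x →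
      0 < Real.cos (x + n * Real.pi) * Real.sin (x + n * Real.pi) := by
    intro x hx
    rcases hn with ⟨-, rfl⟩ | ⟨-, rfl⟩
    · simpa using hx
    · rw [Int.cast_one, one_mul, Real.cos_add_pi, Real.sin_add_pi]; linarith
  have shiftfl : ∀ x : ℝ, ⌊(x + n * Real.pi) / Real.pi⌋ = ⌊x / Real.pi⌋ + n := by
    intro x
    rw [add_div, mul_div_assoc, div_self hπ.ne', mul_one, Int.floor_add_intCast]
  have h0m : (0:ℝ) ∈ Icc (0:ℝ) 1 := ⟨le_rfl, zero_le_one⟩
  have h1m : (1:ℝ) ∈ Icc (0:ℝ) 1 := ⟨zero_le_one, le_rfl⟩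
  have fin := cmp_two (isPreconnected_Icc (a := (0:ℝ)) (b := 1)) cθ.continuousOn
    cφ.continuousOn (fun u hu => by
      obtain ⟨ρ, hρ, r1, r2⟩ := A.ex (X u) (Y u) (hU u).1 (hU u).2
      obtain ⟨ρ', hρ', r3, r4⟩ := A'.ex (X u) (Y u) (hU u).1 (hU u).2
      exact cos_cmp hn hρ hρ' r1 r2 r3 r4 (hpos u hu)) h0m h1m
    (by simp only [X0, Y0]; exact hcs A (by linarith) (by linarith) W0)
    (by simp only [X0, Y0]; exact shiftcs (hcs A' (by linarith) (by linarith) W0'))
    (by simp only [X1, Y1]; exact hcs A (by linarith) (by linarith) W1)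
    (by simp only [X1, Y1]; exact shiftcs (hcs A' (by linarith) (by linarith) W1'))
  simp only [X0, Y0, X1, Y1, shiftfl] at fin
  rw [ka a (a + e) (by linarith) le_rfl (by linarith) (by linarith) (by linarith),
    kb (a + w) b (by linarith) (by linarith) le_rfl (by linarith) (by linarith),
    ka' a (a + e) (by linarith) le_rfl (by linarith) (by linarith) (by linarith),
    kb' (a + w) b (by linarith) (by linarith) le_rfl (by linarith) (by linarith)] at fin
  linarith

end Pool.Agent.T2H16
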