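import Pool.Agent.T2H16.SC.Share
import Pool.Agent.Y535.PEG.Chg

/-! Theta curves. -/

set_option autoImplicit false
open Complex Set Topology Metric
open scoped ComplexConjugate

namespace Pool.Agent.T2H16

open Pool.Agent.H763R2 Pool.Agent.H763R2.An Pool.Agent.W675.Peg Pool.Agent.TH569.Peg
open Pool.Agent.Y535.PEG
open Pool.Agent.H763R2.Dm (NoSq floor_const b_true b_false)

variable {c q : ℝ → ℂ} {a b : ℝ} {θ θ' : ℝ → ℝ → ℝ} {g g' : ℤ}

theorem Narrow.symm {z w : ℂ} (h : Narrow z w) : Narrow w z := by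
  unfold Narrow at h ⊢
  have e1 : (w * conj z).re = (z * conj w).re := by simp; ring
  have e2 : (w * conj z).im = -(z * conj w).im := by simp; ring
  rw [e1, e2, abs_neg]
  exact h

theorem Wide.perL (L : Loop c) {s : ℝ} (h : Wide c s) : Wide c (s + 1) := by
  obtain ⟨ρ, hρ, h1, h2, h3⟩ := h
  have e : ∀ x, c x = c (x - 1) := fun x => by
    have := L.per (x - 1)
    rw [sub_add_cancel] at this
    exact this
  refine ⟨ρ, hρ, ?_, ?_, ?_⟩
  · intro x y a1 a2 a3 a4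
    rw [e x, e y, L.per]
    exact h1 _ _ (by linarith) (by linarith) (by linarith) (by linarith)
  · intro x y a1 a2 a3 a4
    rw [e x, e y, L.per]
    exact h2 _ _ (by linarith) (by linarith) (by linarith) (by linarith)
  · intro x y a1 a2 a3 a4
    rw [e x, e y, L.per]
    exact h3 _ _ (by linarith) (by linarith) (by linarith) (by linarith)

theorem Wide.rev {s : ℝ} (h : Wide c s) : Wide (fun t => c (-t)) (-s) := by
  obtain ⟨ρ, hρ, h1, h2, h3⟩ := h
  refine ⟨ρ, hρ, ?_, ?_, ?_⟩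
  · intro x y a1 a2 a3 a4
    simp only [neg_neg]
    exact h2 _ _ (by linarith) (by linarith) (by linarith) (by linarith)
  · intro x y a1 a2 a3 a4
    simp only [neg_neg]
    exact h1 _ _ (by linarith) (by linarith) (by linarith) (by linarith)
  · intro x y a1 a2 a3 a4
    simp only [neg_neg]
    have := h3 (-y) (-x) (by linarith) (by linarith) (by linarith) (by linarith)
    simp only [mul_re, conj_re, conj_im] at this ⊢
    linarith

/-- the data of one of the three curves -/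
structure Th (c : ℝ → ℂ) (θ : ℝ → ℝ → ℝ) (g p0 p1 : ℤ) : Prop where
  L : Loop c
  J : Inj c
  nosq : NoSq (range c)
  A : Ang c (mgc c) θ g
  w0 : Wide c 0
  w1 : Wide c (1 / 2)
  k0 : WL θ 0 p0
  k1 : WL θ (1 / 2) p1

theorem Th.w2 {p0 p1 : ℤ} (T : Th c θ g p0 p1) : Wide c 1 := by
  have := T.w0.perL T.L
  rwa [zero_add] at this

theorem Th.k2 {p0 p1 : ℤ} (T : Th c θ g p0 p1) : WL θ 1 (p0 + 2 * g) := by
  have := T.k0.per T.A
  rwa [zero_add] at this

theorem Th.first {p0 p1 q0 q1 : ℤ} (T : Th c θ g p0 p1) (T' : Th q θ' g' q0 q1)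
    (h : ∀ t ∈ Icc (0:ℝ) (1 / 2), q t = c t) : p1 - p0 = q1 - q0 :=
  share T.L T.J T.nosq T.A T'.L T'.J T'.nosq T'.A (by norm_num) (by norm_num) h T.w0 T.w1 T'.w0
    T'.w1 T.k0 T.k1 T'.k0 T'.k1

theorem Th.second {p0 p1 q0 q1 : ℤ} (T : Th c θ g p0 p1) (T' : Th q θ' g' q0 q1)
    (h : ∀ t ∈ Icc (1 / 2 : ℝ) 1, q t = c t) : p0 + 2 * g - p1 = q0 + 2 * g' - q1 :=
  share T.L T.J T.nosq T.A T'.L T'.J T'.nosq T'.A (by norm_num) (by norm_num) h T.w1 T.w2 T'.w1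
    T'.w2 T.k1 T.k2 T'.k1 T'.k2

theorem exTh (L : Loop c) (J : Inj c) (nosq : NoSq (range c)) (w0 : Wide c 0)
    (w1 : Wide c (1 / 2)) : ∃ θ g p0 p1 q0 q1, Odd g ∧ Th c θ g p0 p1 ∧
      Th (fun t => c (-t)) (fun x y => θ (-x) (-y + 1)) (-g) q0 q1 := by
  obtain ⟨θ, g, A, ho⟩ := exists_odd L J nosq
  obtain ⟨p0, hp0⟩ := exWL L J A w0
  obtain ⟨p1, hp1⟩ := exWL L J A w1
  have A' := Pool.Agent.Y535.PEG.Ang.rev L A
  have L' := L.rev
  have J' := J.rev L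
  have w0' : Wide (fun t => c (-t)) 0 := by
    have := w0.rev
    rwa [neg_zero] at this
  have w1' : Wide (fun t => c (-t)) (1 / 2) := by
    have := w1.rev.perL L'
    rwa [show -(1 / 2 : ℝ) + 1 = 1 / 2 by norm_num] at this
  obtain ⟨q0, hq0⟩ := exWL L' J' A' w0'
  obtain ⟨q1, hq1⟩ := exWL L' J' A' w1'
  exact ⟨θ, g, p0, p1, q0, q1, ho, ⟨L, J, nosq, A, w0, w1, hp0, hp1⟩,
    ⟨L', J', by rw [range_rev]; exact nosq, A', w0', w1', hq0, hq1⟩⟩

/-- three arcs with common ends -/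
structure Arcs3 (α : Fin 3 → ℝ → ℂ) (P Q : ℂ) : Prop where
  cont : ∀ i, ContinuousOn (α i) (Icc 0 1)
  inj : ∀ i, InjOn (α i) (Icc 0 1)
  s0 : ∀ i, α i 0 = P
  s1 : ∀ i, α i 1 = Q
  disj : ∀ i j, i ≠ j → ∀ s ∈ Ioo (0:ℝ) 1, ∀ t ∈ Ioo (0:ℝ) 1, α i s ≠ α j t
  jP : ∃ ρ > 0, ∀ i, ∀ s t : ℝ, 0 < s → s < ρ → 0 < t → t < ρ →
    Narrow (α i s - P) (α i t - P) ∧ ∀ j, j ≠ i → ((α i s - P) * conj (α j t - P)).re < 0
  jQ : ∃ ρ > 0, ∀ i, ∀ s t : ℝ, 1 - ρ < s → s < 1 → 1 - ρ < t → t < 1 →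
    Narrow (α i s - Q) (α i t - Q) ∧ ∀ j, j ≠ i → ((α i s - Q) * conj (α j t - Q)).re < 0

theorem Arcs3.loop {α : Fin 3 → ℝ → ℂ} {P Q : ℂ} (H : Arcs3 α P Q) {i j : Fin 3} (hij : i ≠ j) :
    ∃ c, Loop c ∧ Inj c ∧ (∀ t ∈ Icc (0:ℝ) (1 / 2), c t = α i (2 * t)) ∧
      (∀ t ∈ Icc (1 / 2 : ℝ) 1, c t = α j (2 - 2 * t)) ∧
      range c ⊆ α i '' Icc 0 1 ∪ α j '' Icc 0 1 ∧ Wide c 0 ∧ Wide c (1 / 2) := by
  set f : ℝ → ℂ := fun t => α i (min 1 (2 * t)) + α j (min 1 (2 - 2 * t)) - Q with hf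
  have cf : ContinuousOn f (Icc 0 1) := by
    refine ((ContinuousOn.comp (H.cont i) (by fun_prop) ?_).add
      (ContinuousOn.comp (H.cont j) (by fun_prop) ?_)).sub continuousOn_const
    · intro t ht
      exact ⟨le_min zero_le_one (by linarith [ht.1]), min_le_left _ _⟩
    · intro t ht
      exact ⟨le_min zero_le_one (by linarith [ht.2]), min_le_left _ _⟩
  have f1 : ∀ t, t ≤ 1 / 2 → f t = α i (2 * t) := fun t ht => by
    simp only [hf]
    rw [min_eq_right (by linarith : 2 * t ≤ 1), min_eq_left (by linarith : 1 ≤ 2 - 2 * t), H.s1]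
    ring
  have f2 : ∀ t, 1 / 2 ≤ t → f t = α j (2 - 2 * t) := fun t ht => by
    simp only [hf]
    rw [min_eq_left (by linarith : 1 ≤ 2 * t), min_eq_right (by linarith : 2 - 2 * t ≤ 1), H.s1]
    ring
  obtain ⟨c, L, hc⟩ := exPer (f := f) cf (by
    rw [f1 0 (by norm_num), f2 1 (by norm_num)]
    norm_num
    rw [H.s0, H.s0])
  have c1 : ∀ t ∈ Icc (0:ℝ) (1 / 2), c t = α i (2 * t) := fun t ht => by
    rw [hc t ⟨ht.1, by linarith [ht.2]⟩, f1 t ht.2]
  have c2 : ∀ t ∈ Icc (1 / 2 : ℝ) 1, c t = α j (2 - 2 * t) := fun t ht => by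
    rw [hc t ⟨by linarith [ht.1], ht.2⟩, f2 t ht.1]
  -- injectivity on [0, 1)
  have inj1 : ∀ x y : ℝ, 0 ≤ x → x < y → y < 1 → c x ≠ c y := by
    intro x y hx hxy hy he
    rcases le_total y (1 / 2) with h | h
    · rw [c1 x ⟨hx, by linarith⟩, c1 y ⟨by linarith, h⟩] at he
      have := H.inj i ⟨by linarith, by linarith⟩ ⟨by linarith, by linarith⟩ he
      linarith
    · rcases le_total x (1 / 2) with h' | h'
      · rw [c1 x ⟨hx, h'⟩, c2 y ⟨h, hy.le⟩] at he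
        rcases h.lt_or_eq with h2 | h2
        · rcases hx.lt_or_eq with h3 | h3
          · rcases h'.lt_or_eq with h4 | h4
            · exact H.disj i j hij _ ⟨by linarith, by linarith⟩ _ ⟨by linarith, by linarith⟩ he
            · rw [h4, show (2:ℝ) * (1 / 2) = 1 by norm_num, H.s1, ← H.s1 j] at he
              have := H.inj j ⟨zero_le_one, le_rfl⟩ ⟨by linarith, by linarith⟩ he
              linarith
          · rw [← h3, mul_zero, H.s0, ← H.s0 j] at he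
            have := H.inj j ⟨le_rfl, zero_le_one⟩ ⟨by linarith, by linarith⟩ he
            linarith
        · rw [← h2, show (2:ℝ) - 2 * (1 / 2) = 1 by norm_num, H.s1, ← H.s1 i] at he
          have := H.inj i ⟨by linarith, by linarith⟩ ⟨zero_le_one, le_rfl⟩ he
          linarith
      · rw [c2 x ⟨h', by linarith⟩, c2 y ⟨h, hy.le⟩] at he
        have := H.inj j ⟨by linarith, by linarith⟩ ⟨by linarith, by linarith⟩ he
        linarith
  have J : Inj c := by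
    intro x y hxy hy he
    have e1 : c (Int.fract x) = c x := by
      have := L.per_int (Int.fract x) ⌊x⌋
      rw [Int.fract_add_floor] at this
      exact this.symm
    have e2 : c (Int.fract y) = c y := by
      have := L.per_int (Int.fract y) ⌊y⌋
      rw [Int.fract_add_floor] at this
      exact this.symm
    have e3 : Int.fract x = Int.fract y := by
      rcases lt_trichotomy (Int.fract x) (Int.fract y) with h | h | h
      · exact absurd (by rw [e1, e2, he]) (inj1 _ _ (Int.fract_nonneg x) h (Int.fract_lt_one y))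
      · exact h
      · exact absurd (by rw [e1, e2, he]) (inj1 _ _ (Int.fract_nonneg y) h (Int.fract_lt_one x))
    obtain ⟨m, hm⟩ := Int.fract_eq_fract.1 e3
    have h1 : (m : ℝ) < 0 := by linarith
    have h2 : (-1 : ℝ) < m := by linarith
    have h3 : m < 0 := by exact_mod_cast h1
    have h4 : -1 < m := by exact_mod_cast h2
    omega
  refine ⟨c, L, J, c1, c2, ?_, ?_, ?_⟩
  · rw [L.range_eq]
    rintro _ ⟨t, ht, rfl⟩
    rcases le_total t (1 / 2) with h | h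
    · rw [c1 t ⟨ht.1, h⟩]
      exact Or.inl ⟨_, ⟨by linarith [ht.1], by linarith⟩, rfl⟩
    · rw [c2 t ⟨h, ht.2⟩]
      exact Or.inr ⟨_, ⟨by linarith [ht.2], by linarith⟩, rfl⟩
  · obtain ⟨ρ, hρ, hP⟩ := H.jP
    have m1 := min_le_left ρ 1
    have m2 := min_le_right ρ 1
    have e0 : c 0 = P := by rw [c1 0 ⟨le_rfl, by norm_num⟩, mul_zero, H.s0]
    have em : ∀ x, -(1 / 2) ≤ x → x ≤ 0 → c x = α j (-2 * x) := by
      intro x hx hx'
      rw [← L.per, c2 (x + 1) ⟨by linarith, by linarith⟩]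
      congr 1; ring
    refine ⟨min ρ 1 / 2, by positivity, ?_, ?_, ?_⟩
    · intro x y a1 a2 a3 a4
      rw [e0, c1 x ⟨a1.le, by linarith⟩, c1 y ⟨a3.le, by linarith⟩]
      exact (hP i _ _ (by linarith) (by linarith) (by linarith) (by linarith)).1
    · intro x y a1 a2 a3 a4
      rw [e0, em x (by linarith) a2.le, em y (by linarith) a4.le]
      exact (hP j _ _ (by linarith) (by linarith) (by linarith) (by linarith)).1
    · intro x y a1 a2 a3 a4
      rw [e0, em x (by linarith) a2.le, c1 y ⟨a3.le, by linarith⟩]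
      exact (hP j _ _ (by linarith) (by linarith) (by linarith) (by linarith)).2 i hij
  · obtain ⟨ρ, hρ, hQ⟩ := H.jQ
    have m1 := min_le_left ρ 1
    have m2 := min_le_right ρ 1
    have e0 : c (1 / 2) = Q := by
      rw [c1 (1 / 2) ⟨by norm_num, le_rfl⟩, show (2:ℝ) * (1 / 2) = 1 by norm_num, H.s1]
    refine ⟨min ρ 1 / 2, by positivity, ?_, ?_, ?_⟩
    · intro x y a1 a2 a3 a4
      rw [e0, c2 x ⟨a1.le, by linarith⟩, c2 y ⟨a3.le, by linarith⟩]
      exact (hQ j _ _ (by linarith) (by linarith) (by linarith) (by linarith)).1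
    · intro x y a1 a2 a3 a4
      rw [e0, c1 x ⟨by linarith, a2.le⟩, c1 y ⟨by linarith, a4.le⟩]
      exact (hQ i _ _ (by linarith) (by linarith) (by linarith) (by linarith)).1
    · intro x y a1 a2 a3 a4
      rw [e0, c1 x ⟨by linarith, a2.le⟩, c2 y ⟨a3.le, by linarith⟩]
      exact (hQ i _ _ (by linarith) (by linarith) (by linarith) (by linarith)).2 j hij.symm

/-- theta curves -/
theorem Arcs3.main {α : Fin 3 → ℝ → ℂ} {P Q : ℂ} (H : Arcs3 α P Q) :
    ∃ i j, i ≠ j ∧ ¬ NoSq (α i '' Icc 0 1 ∪ α j '' Icc 0 1) := by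
  by_contra hcon
  push Not at hcon
  have mono : ∀ {A B : Set ℂ}, A ⊆ B → NoSq B → NoSq A := by
    rintro A B h hB ⟨z, w, hw, h1, h2, h3, h4⟩
    exact hB ⟨z, w, hw, h h1, h h2, h h3, h h4⟩
  obtain ⟨c1, L1, J1, f1, s1, r1, w1, v1⟩ := H.loop (i := 0) (j := 1) (by decide)
  obtain ⟨c2, L2, J2, f2, s2, r2, w2, v2⟩ := H.loop (i := 1) (j := 2) (by decide)
  obtain ⟨c3, L3, J3, f3, s3, r3, w3, v3⟩ := H.loop (i := 2) (j := 0) (by decide)
  obtain ⟨θ1, g1, p1, q1, p1', q1', o1, T1, U1⟩ := exTh L1 J1 (mono r1 (hcon 0 1 (by decide))) w1 v1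
  obtain ⟨θ2, g2, p2, q2, p2', q2', o2, T2, U2⟩ := exTh L2 J2 (mono r2 (hcon 1 2 (by decide))) w2 v2
  obtain ⟨θ3, g3, p3, q3, p3', q3', o3, T3, U3⟩ := exTh L3 J3 (mono r3 (hcon 2 0 (by decide))) w3 v3
  have rv1 : ∀ {c : ℝ → ℂ} {β : ℝ → ℂ}, Loop c → (∀ t ∈ Icc (1 / 2 : ℝ) 1, c t = β (2 - 2 * t)) →
      ∀ t ∈ Icc (0:ℝ) (1 / 2), c (-t) = β (2 * t) := by
    intro c β L h t ht
    rw [← L.per, h (-t + 1) ⟨by linarith [ht.2], by linarith [ht.1]⟩]
    congr 1; ring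
  have rv2 : ∀ {c : ℝ → ℂ} {β : ℝ → ℂ}, Loop c → (∀ t ∈ Icc (0:ℝ) (1 / 2), c t = β (2 * t)) →
      ∀ t ∈ Icc (1 / 2 : ℝ) 1, c (-t) = β (2 - 2 * t) := by
    intro c β L h t ht
    rw [← L.per, h (-t + 1) ⟨by linarith [ht.2], by linarith [ht.1]⟩]
    congr 1; ring
  have e1 := T1.first U3 (fun t ht => by rw [rv1 L3 s3 t ht, f1 t ht])
  have e2 := T2.first U1 (fun t ht => by rw [rv1 L1 s1 t ht, f2 t ht])
  have e3 := T3.first U2 (fun t ht => by rw [rv1 L2 s2 t ht, f3 t ht])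
  have d1 := T1.second U2 (fun t ht => by rw [rv2 L2 f2 t ht, s1 t ht])
  have d2 := T2.second U3 (fun t ht => by rw [rv2 L3 f3 t ht, s2 t ht])
  have d3 := T3.second U1 (fun t ht => by rw [rv2 L1 f1 t ht, s3 t ht])
  obtain ⟨a1, ha1⟩ := o1
  obtain ⟨a2, ha2⟩ := o2
  obtain ⟨a3, ha3⟩ := o3
  omega

end Pool.Agent.T2H16
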